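import Pool.Agent.H24.DualLemmas

/-!
# The degree of the dual variety of a reciprocal linear space

For linear forms `ℓ_0, …, ℓ_n` on `ℂ^{d+1}` which span the dual space and whose matroid is
connected, the dual variety of the reciprocal linear space is an irreducible hypersurface of
degree `2 ^ d * β`. The definitions are in `Pool/Agent/H24/DualDefs.lean`.
-/

set_option autoImplicit false

namespace Pool.Agent.Results.MP_0aec2a_ag.DualDegree

open Module Pool.Agent.H24.DualDegree

/-- **Main theorem** (affirmative answer to Q1). Let `ℓ_0, …, ℓ_n` be linear forms on `ℂ^{d+1}`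
which span the dual space and whose matroid is connected. Then the dual variety of the
reciprocal linear space `L⁻¹` is an irreducible hypersurface of degree `2^d β`. -/
theorem result {d n : ℕ} (l : Fin (n + 1) → Dual ℂ (Fin (d + 1) → ℂ))
    (hspan : Submodule.span ℂ (Set.range l) = ⊤) (hconn : IsConnectedMatroid l) :
    ∃ D : ℕ, IsIrreducibleHypersurface (dualVariety (recipSpace l)) D ∧
      (D : ℤ) = 2 ^ d * beta l :=
  main l hspan hconn

end Pool.Agent.Results.MP_0aec2a_ag.DualDegree
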